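import Pool.Agent.AEC.StmtsC

/-!
# Squad AEC, row S1G: one extension which is stable for all small submodels
-/

set_option autoImplicit false

open FirstOrder FirstOrder.Language Cardinal Set

universe u

namespace Pool.Agent.AEC.H59

/-- S1G -/
theorem s1g (stb : StbStmt.{u}) (ccl : CclStmt.{u}) (cn3 : Cn3Stmt.{u}) (cn4 : Cn4Stmt.{u}) :
    S1gStmt.{u} := by
  intro L κ K P l χ hκ hl hlχ hP Q0 hQ0
  have hl0 : l ≠ 0 := (aleph0_pos.trans_le hl).ne'
  let T : Type u := Σ S : {S : L.Substructure Q0.α // #S ≤ χ ∧ K.emb S.subtype},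
    K.Hom (AEC.sub Q0 S.1 S.2.2) P
  have hT : #T ≤ l := by
    have h1 : ∀ S : {S : L.Substructure Q0.α // #S ≤ χ ∧ K.emb S.subtype},
        #(K.Hom (AEC.sub Q0 S.1 S.2.2) P) ≤ l := by
      intro S
      refine (cn4 L κ K (AEC.sub Q0 S.1 S.2.2) P).trans ?_
      rw [hP]
      have h2 : #(AEC.sub Q0 S.1 S.2.2).α ≤ χ := S.2.1
      exact (Cardinal.power_le_power_left hl0 h2).trans hlχ.le
    have h2 : #{S : L.Substructure Q0.α // #S ≤ χ ∧ K.emb S.subtype} ≤ l := by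
      have h3 : #{S : L.Substructure Q0.α // #S ≤ χ} ≤ l := by
        have h4 := cn3 L Q0.α χ (K.aleph0_le.trans hκ) (hQ0 ▸ hl) (by rw [hQ0]; exact hlχ)
        rwa [hQ0] at h4
      refine le_trans ?_ h3
      exact Cardinal.mk_le_of_injective
        (f := fun S : {S : L.Substructure Q0.α // #S ≤ χ ∧ K.emb S.subtype} =>
          (⟨S.1, S.2.1⟩ : {S : L.Substructure Q0.α // #S ≤ χ}))
        (fun S S' h => Subtype.ext (Subtype.mk.inj h))
    calc #T = Cardinal.sum fun S : {S : L.Substructure Q0.α // #S ≤ χ ∧ K.emb S.subtype} =>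
          #(K.Hom (AEC.sub Q0 S.1 S.2.2) P) := Cardinal.mk_sigma _
      _ ≤ Cardinal.sum fun _ : {S : L.Substructure Q0.α // #S ≤ χ ∧ K.emb S.subtype} => l :=
          Cardinal.sum_le_sum _ _ h1
      _ = #{S : L.Substructure Q0.α // #S ≤ χ ∧ K.emb S.subtype} * l := Cardinal.sum_const' _ _
      _ ≤ l * l := mul_le_mul' h2 le_rfl
      _ = l := Cardinal.mul_eq_self hl
  obtain ⟨B, f, hB, hD⟩ := stb L κ K Q0 T
    (fun B f => {t | t.2 ∈ AEC.Tr P (f.comp (AEC.subHom Q0 t.1.1 t.1.2.2))})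
    (fun B => #B.α = l) (by
      rintro B C e g t ⟨k, hk⟩
      exact ⟨k.comp g, hk⟩) (by
      intro J _ _ _ _ hJ
      exact (ccl L κ K l hl).2 J (hJ.trans (max_le hT hl))) hQ0
  refine ⟨B, f, hB, fun S h hS C g hC => ?_⟩
  ext σ
  exact Set.ext_iff.1 (hD C g hC) ⟨⟨S, hS, h⟩, σ⟩

end Pool.Agent.AEC.H59
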