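import Pool.Agent.AEC.StmtsZ

/-!
# Squad AEC, row A3F: Theorem A
-/

set_option autoImplicit false

open FirstOrder FirstOrder.Language Cardinal Set

universe u

namespace Pool.Agent.AEC.H59

/-- A3F -/
theorem a3f (a2f : A2fStmt.{u}) : A3fStmt.{u} := by
  intro L κ K l χ hκ hl hlχ hcat M hM A hA ι B f hB
  obtain ⟨G, hG, h1⟩ := a2f L κ K l χ hκ hl hlχ hcat
  obtain ⟨θ⟩ := hcat.2 G M hG hM
  have hA' : #(θ ⁻¹' A) ≤ χ := (Cardinal.mk_preimage_of_injective _ _ θ.injective).trans hA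
  obtain ⟨Z, w, hw⟩ := h1 (θ ⁻¹' A) hA' ι B (fun i => (f i).comp (AEC.Hom.ofEquiv θ)) hB
  refine ⟨Z, w, fun i j x hx => ?_⟩
  have h2 : θ (θ.symm x) = x := θ.apply_symm_apply x
  have h3 := hw i j (θ.symm x) (by
    change θ (θ.symm x) ∈ A
    rw [h2]
    exact hx)
  have h4 : ∀ i, (f i).comp (AEC.Hom.ofEquiv θ) (θ.symm x) = f i x := by
    intro i
    change f i (θ (θ.symm x)) = f i x
    rw [h2]
  rw [h4, h4] at h3
  exact h3

end Pool.Agent.AEC.H59
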