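import Pool.Agent.AEC.StmtsB

/-!
# Squad AEC, row CN1: the number of the linear orders on subsets
-/

set_option autoImplicit false

open FirstOrder FirstOrder.Language Cardinal Set

universe u

namespace Pool.Agent.AEC.H59

/-- the code of a linear order on a subset -/
def code {X : Type u} (j : LO X) : Set X × Set (X × X) :=
  (j.s, {p | ∃ (h1 : p.1 ∈ j.s) (h2 : p.2 ∈ j.s), j.lo.le ⟨p.1, h1⟩ ⟨p.2, h2⟩})

theorem code_inj {X : Type u} : Function.Injective (code (X := X)) := by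
  rintro ⟨s, lo⟩ ⟨s', lo'⟩ h
  have h1 : s = s' := congrArg Prod.fst h
  subst h1
  have h2 : {p : X × X | ∃ (h1 : p.1 ∈ s) (h2 : p.2 ∈ s), lo.le ⟨p.1, h1⟩ ⟨p.2, h2⟩} =
    {p : X × X | ∃ (h1 : p.1 ∈ s) (h2 : p.2 ∈ s), lo'.le ⟨p.1, h1⟩ ⟨p.2, h2⟩} :=
    congrArg Prod.snd h
  have h3 : lo = lo' := by
    apply LinearOrder.ext
    rintro ⟨x, hx⟩ ⟨y, hy⟩
    have h4 := Set.ext_iff.1 h2 (x, y)
    constructor
    · intro h5
      obtain ⟨_, _, h6⟩ := h4.1 ⟨hx, hy, h5⟩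
      exact h6
    · intro h5
      obtain ⟨_, _, h6⟩ := h4.2 ⟨hx, hy, h5⟩
      exact h6
  rw [h3]

/-- CN1 -/
theorem cn1 : Cn1Stmt.{u} := by
  intro X hX
  have h1 : #(LO X) ≤ #(Set X × Set (X × X)) := Cardinal.mk_le_of_injective code_inj
  have h2 : #(Set X × Set (X × X)) = 2 ^ #X := by
    rw [Cardinal.mk_prod, Cardinal.lift_id, Cardinal.lift_id, Cardinal.mk_set, Cardinal.mk_set,
      Cardinal.mk_prod, Cardinal.lift_id, Cardinal.mul_eq_self hX]
    exact Cardinal.mul_eq_self (hX.trans (Cardinal.cantor _).le)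
  exact h1.trans h2.le

end Pool.Agent.AEC.H59
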