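import Pool.Agent.AEC.StmtsS

/-!
# Squad AEC, row S_XVC: the set of the elements with few images does not grow
-/

set_option autoImplicit false

open FirstOrder FirstOrder.Language Cardinal Set

universe u

noncomputable section

namespace Pool.Agent.AEC.S.H59

section aut

variable {L : FirstOrder.Language.{u, u}} {κ : Cardinal.{u}} (aut : AutStmt.{u})
  {M N : Type u} [L.Structure M] [L.Structure N]

include aut

theorem sv_iff (e : M ≃[L] N) (x : M) : e x ∈ Sv L κ N ↔ x ∈ Sv L κ M := by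
  rw [← (aut L κ M N e).2.1, e.injective.mem_set_image]

theorem xv_iff (e : M ≃[L] N) (x : M) : e x ∈ Xv L κ N ↔ x ∈ Xv L κ M := by
  rw [← (aut L κ M N e).2.2.1, e.injective.mem_set_image]

theorem cmp_im (e : M ≃[L] N) (x : M) :
    e '' cmp L (Sv L κ M) x = cmp L (Sv L κ N) (e x) := by
  rw [(aut L κ M N e).2.2.2.1, (aut L κ M N e).2.1]

/-- the component of a point of the component -/
theorem cmp_eq {T : Set M} {x y : M} (hx : x ∉ T) (hy : y ∈ cmp L T x) :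
    y ∉ T ∧ cmp L T y = cmp L T x := by
  have h0 : ∀ z, con L T x z → z ∉ T := by
    intro z hz
    induction hz with
    | refl => exact hx
    | tail _ h _ => exact h.2
  have h1 : y ∉ T := h0 y hy
  have h2 : con L T y x := (aut L 0 M M (FirstOrder.Language.Equiv.refl L M)).2.2.2.2 T x y hx h1 hy
  refine ⟨h1, Set.Subset.antisymm (fun z hz => ?_) (fun z hz => ?_)⟩
  · exact Relation.ReflTransGen.trans hy hz
  · exact Relation.ReflTransGen.trans h2 hz

end aut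

theorem tag_ne {L : FirstOrder.Language.{u, u}} {κ : Cardinal.{u}} {τ : Tpl L κ} {T : Type u}
    (x : W τ T) (h : x.tag ≠ none) : ∃ t a, x = W.hi t a := by
  rcases x with x | ⟨t, a⟩
  · exact absurd rfl h
  · exact ⟨t, a, rfl⟩

theorem tag_none {L : FirstOrder.Language.{u, u}} {κ : Cardinal.{u}} {τ : Tpl L κ} {T : Type u}
    (x : W τ T) (h : x.tag = none) : ∃ p, x = W.lo p := by
  rcases x with x | ⟨t, a⟩
  · exact ⟨x, rfl⟩
  · exact absurd h (by change some t ≠ none; exact Option.some_ne_none t)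

section ex

variable {L : FirstOrder.Language.{u, u}} [L.IsRelational] {κ : Cardinal.{u}}
  (aut : AutStmt.{u}) (wgr : WgrStmt.{u}) (xvw : XvwStmt.{u}) {τ : Tpl L κ} {T : Type u}
  (hκ : ℵ₀ ≤ κ) (hT : κ < #T)

include aut wgr xvw hκ hT

/-- two components with elements with many images are exchanged by an automorphism -/
theorem exW (u v : W τ T) (hu : u ∉ Xv L κ (W τ T)) (hv : v ∉ Xv L κ (W τ T)) :
    ∃ e : W τ T ≃[L] W τ T, (∀ y ∈ Sv L κ (W τ T), e y = y) ∧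
      cmp L (Sv L κ (W τ T)) (e u) = cmp L (Sv L κ (W τ T)) v := by
  classical
  obtain ⟨w1, w2, -⟩ := wgr L κ τ T hκ hT
  obtain ⟨-, -, x3⟩ := xvw L κ τ T hκ hT
  obtain ⟨e₁, h1, h1'⟩ := x3 u hu
  obtain ⟨e₂, h2, h2'⟩ := x3 v hv
  obtain ⟨t, a, hta⟩ := tag_ne _ h1'
  obtain ⟨t', a', hta'⟩ := tag_ne _ h2'
  let s : W τ T ≃[L] W τ T := W.eqv (Equiv.swap t t')
  have hs : s (W.hi t a) = W.hi t' a := by
    change W.hi (Equiv.swap t t' t) a = W.hi t' a
    rw [Equiv.swap_apply_left]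
  have hsy : ∀ y ∈ Sv L κ (W τ T), s y = y := by
    intro y hy
    obtain ⟨p, rfl⟩ := tag_none y ((w1 y).1 hy).1
    rfl
  have h2s : ∀ y ∈ Sv L κ (W τ T), e₂.symm y = y := by
    intro y hy
    conv_lhs => rw [← h2 y hy]
    exact e₂.symm_apply_apply y
  refine ⟨e₂.symm.comp (s.comp e₁), fun y hy => ?_, ?_⟩
  · change e₂.symm (s (e₁ y)) = y
    rw [h1 y hy, hsy y hy, h2s y hy]
  · change cmp L (Sv L κ (W τ T)) (e₂.symm (s (e₁ u))) = _
    rw [hta, hs, ← cmp_im aut, w2 t' a, ← w2 t' a', cmp_im aut, ← hta']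
    congr 1
    exact e₂.symm_apply_apply v

theorem exN {N : Type u} [L.Structure N] (ψ : W τ T ≃[L] N) (u v : N) (hu : u ∉ Xv L κ N)
    (hv : v ∉ Xv L κ N) :
    ∃ e : N ≃[L] N, (∀ y ∈ Sv L κ N, e y = y) ∧
      cmp L (Sv L κ N) (e u) = cmp L (Sv L κ N) v := by
  obtain ⟨e, h1, h2⟩ := exW aut wgr xvw (τ := τ) hκ hT (ψ.symm u) (ψ.symm v)
    (fun h => hu ((xv_iff aut ψ.symm u).1 h)) (fun h => hv ((xv_iff aut ψ.symm v).1 h))
  refine ⟨ψ.comp (e.comp ψ.symm), fun y hy => ?_, ?_⟩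
  · change ψ (e (ψ.symm y)) = y
    rw [h1 _ ((sv_iff aut ψ.symm y).2 hy)]
    exact ψ.apply_symm_apply y
  · change cmp L (Sv L κ N) (ψ (e (ψ.symm u))) = _
    rw [← cmp_im aut, h2, cmp_im aut]
    congr 1
    exact ψ.apply_symm_apply v

end ex

/-- S_XVC -/
theorem xvc (bgr : BgrStmt.{u}) (frz : FrzStmt.{u}) (svc : SvcStmt.{u}) (swp : SwpStmt.{u})
    (xvw : XvwStmt.{u}) (wgr : WgrStmt.{u}) (aut : AutStmt.{u}) (typ : TypStmt.{u}) :
    XvcStmt.{u} := by
  classical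
  intro L _ κ K τ l hl
  obtain ⟨hok, hsl, hcat⟩ := id hl
  have hκl : κ < l := Order.succ_le_iff.1 hsl
  have hκ : ℵ₀ ≤ κ := K.aleph0_le
  -- the isomorphism with `W`
  have hW : ∀ A : K.Mod, #A.α = l → Nonempty (W τ A.α ≃[L] A.α) := fun A hA =>
    (typ L κ K τ hok).2 l hκl hcat A A.α hA hA
  have hsmall : ∀ A : K.Mod, #A.α = l → #(Xv L κ A.α) ≤ κ := by
    intro A hA
    obtain ⟨φ⟩ := hW A hA
    have hT : κ < #A.α := by rw [hA]; exact hκl
    have h1 := (xvw L κ τ A.α hκ hT).1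
    have h2 : ∀ x : Xv L κ A.α, ∃ p : {x : τ.P // x ∉ τ.A}, φ.symm x.1 = W.lo p := by
      intro x
      exact tag_none _ (h1 _ ((xv_iff aut φ.symm x.1).2 x.2))
    choose p hp using h2
    have hinj : Function.Injective (fun x => (p x).1) := by
      intro x y hxy
      have h3 : p x = p y := Subtype.ext hxy
      have h4 : φ.symm x.1 = φ.symm y.1 := by rw [hp, hp, h3]
      exact Subtype.ext (φ.symm.injective h4)
    exact (Cardinal.mk_le_of_injective hinj).trans τ.card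
  refine bgr L κ K l (fun B => Xv L κ B.α) hsl hcat hsmall
    (fun A B e _ => (aut L κ A.α B.α e).2.2.1) ?_
  rintro M N f hM hN _ ⟨x, hx, rfl⟩
  by_contra hfx
  obtain ⟨φ⟩ := hW M hM
  obtain ⟨ψ⟩ := hW N hN
  have hTM : κ < #M.α := by rw [hM]; exact hκl
  have hTN : κ < #N.α := by rw [hN]; exact hκl
  have hsub : ∀ z : N.α, z ∈ Sv L κ N.α → z ∈ Xv L κ N.α := by
    intro z hz
    rw [← xv_iff aut ψ.symm z]
    exact (xvw L κ τ N.α hκ hTN).2.1 ((sv_iff aut ψ.symm z).2 hz)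
  have hsv : Sv L κ N.α = f '' Sv L κ M.α := svc L κ K τ l hl M N f hM hN
  have hnot : ∀ z : M.α, f z ∉ Xv L κ N.α → z ∉ Sv L κ M.α := by
    intro z hz h
    exact hz (hsub _ (hsv ▸ Set.mem_image_of_mem f h))
  -- a component with elements with many images
  obtain ⟨a₀, ha₀⟩ := τ.ne
  obtain ⟨t₀, ht₀⟩ : ∃ t₀ : M.α, f (φ (W.hi t₀ ⟨a₀, ha₀⟩)) ∉ Xv L κ N.α := by
    by_contra hcon
    push Not at hcon
    have hinj : Function.Injective (fun t : M.α =>
        (⟨f (φ (W.hi t ⟨a₀, ha₀⟩)), hcon t⟩ : Xv L κ N.α)) := by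
      intro t t' h
      have h1 := φ.injective (f.injective (Subtype.mk.inj h))
      have h2 : (Sum.inr (t, (⟨a₀, ha₀⟩ : τ.A)) : {x : τ.P // x ∉ τ.A} ⊕ (M.α × τ.A)) =
        Sum.inr (t', ⟨a₀, ha₀⟩) := h1
      exact congrArg Prod.fst (Sum.inr.inj h2)
    exact absurd ((Cardinal.mk_le_of_injective hinj).trans (hsmall N hN)) (not_le.2 hTM)
  obtain ⟨y, hy⟩ : ∃ y, y = φ (W.hi t₀ ⟨a₀, ha₀⟩) := ⟨_, rfl⟩
  rw [← hy] at ht₀
  obtain ⟨e, he1, he2⟩ := exN aut wgr xvw hκ hTN ψ (f x) (f y) hfx ht₀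
  have hxs : x ∉ Sv L κ M.α := hnot x hfx
  have hys : y ∉ Sv L κ M.α := hnot y ht₀
  have hcx : cmp L (Sv L κ N.α) (f x) = f '' cmp L (Sv L κ M.α) x := frz L κ K τ l hl M N f x hM hN hxs
  have hcy : cmp L (Sv L κ N.α) (f y) = f '' cmp L (Sv L κ M.α) y := frz L κ K τ l hl M N f y hM hN hys
  have hex : e '' (f '' cmp L (Sv L κ M.α) x) = f '' cmp L (Sv L κ M.α) y := by
    rw [← hcx, cmp_im aut, he2, hcy]
  -- the map `g`
  have hg0 : ∀ z ∈ cmp L (Sv L κ M.α) x, ∃ w ∈ cmp L (Sv L κ M.α) y, f w = e (f z) := by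
    intro z hz
    have h1 : e (f z) ∈ f '' cmp L (Sv L κ M.α) y := by
      rw [← hex]
      exact Set.mem_image_of_mem e (Set.mem_image_of_mem f hz)
    exact h1
  let g : M.α → M.α := fun z => if hz : z ∈ cmp L (Sv L κ M.α) x then (hg0 z hz).choose else z
  have hg : ∀ z ∈ cmp L (Sv L κ M.α) x, g z ∈ cmp L (Sv L κ M.α) y ∧ f (g z) = e (f z) := by
    intro z hz
    have h1 : g z = (hg0 z hz).choose := dif_pos hz
    rw [h1]
    exact (hg0 z hz).choose_spec
  have hgs : ∀ z ∈ Sv L κ M.α, g z = z ∧ f (g z) = e (f z) := by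
    intro z hz
    have h1 : z ∉ cmp L (Sv L κ M.α) x := fun h => (cmp_eq aut hxs h).1 hz
    have h2 : g z = z := dif_neg h1
    refine ⟨h2, ?_⟩
    rw [h2, he1 _ (hsv ▸ Set.mem_image_of_mem f hz)]
  have hxx : x ∈ cmp L (Sv L κ M.α) x := Relation.ReflTransGen.refl
  obtain ⟨hx's, hx'c⟩ := cmp_eq aut hys (hg x hxx).1
  have hbij : Set.BijOn g (cmp L (Sv L κ M.α) x) (cmp L (Sv L κ M.α) (g x)) := by
    rw [hx'c]
    refine ⟨fun z hz => (hg z hz).1, fun z hz z' hz' h => ?_, fun w hw => ?_⟩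
    · have h1 : e (f z) = e (f z') := by rw [← (hg z hz).2, ← (hg z' hz').2, h]
      exact f.injective (e.injective h1)
    · have h1 : f w ∈ e '' (f '' cmp L (Sv L κ M.α) x) := by
        rw [hex]
        exact Set.mem_image_of_mem f hw
      obtain ⟨_, ⟨z, hz, rfl⟩, h2⟩ := h1
      refine ⟨z, hz, f.injective ?_⟩
      rw [(hg z hz).2, h2]
  have hrel : ∀ (n : ℕ) (R : L.Relations n) (v : Fin n → M.α),
      (∀ i, v i ∈ Sv L κ M.α ∨ v i ∈ cmp L (Sv L κ M.α) x) →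
      (Structure.RelMap R v ↔ Structure.RelMap R fun i => g (v i)) := by
    intro n R v hv
    have h1 : (fun i => f (g (v i))) = fun i => e (f (v i)) := by
      funext i
      rcases hv i with h | h
      · exact (hgs _ h).2
      · exact (hg _ h).2
    have h2 : Structure.RelMap R (fun i => f (v i)) ↔ Structure.RelMap R v :=
      f.toEmb.map_rel R v
    have h3 : Structure.RelMap R (fun i => e (f (v i))) ↔
        Structure.RelMap R (fun i => f (v i)) := e.map_rel R fun i => f (v i)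
    have h4 : Structure.RelMap R (fun i => f (g (v i))) ↔
        Structure.RelMap R (fun i => g (v i)) := f.toEmb.map_rel R fun i => g (v i)
    rw [← h2, ← h3, ← h1, h4]
  obtain ⟨h, -, hh⟩ := swp L M.α (Sv L κ M.α) x (g x) g hxs hx's (fun z hz => (hgs z hz).1)
    hbij rfl hrel
  -- `g x` has many images
  have h1 : g x ∈ φ '' {z | z.tag = some t₀} := by
    rw [← (wgr L κ τ M.α hκ hTM).2.1 t₀ ⟨a₀, ha₀⟩, cmp_im aut, ← hy]
    exact (hg x hxx).1
  obtain ⟨z, hz, hzx⟩ := h1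
  have h2 : z ∈ Xv L κ (W τ M.α) := by
    rw [← xv_iff aut φ z, hzx, ← hh, xv_iff aut h x]
    exact hx
  have h3 := (xvw L κ τ M.α hκ hTM).1 z h2
  have h4 : z.tag = some t₀ := hz
  rw [h3] at h4
  exact absurd h4.symm (Option.some_ne_none t₀)

end Pool.Agent.AEC.S.H59
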